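import Pool.Agent.H36.Slp7

open Pool.Agent.H38.NP Pool.Agent.H38.ER Pool.Agent.H36.Slp

theorem Pool.Agent.Results.MP_09bf15_lc.Hard.result :
    ERHardOn (fun _ : ℕ × List (ℕ × ℕ) × ℕ => True) fun p => SlopeLE (graphOf p.1 p.2.1) p.2.2 :=
  slope_erh.hardOn
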